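import Pool.Agent.H40.AG.Base
import Pool.Agent.H66.SG.T7

/-!
SHARP GAP (`MP_c59857_nt`): the choice of the parameters of the descent.
-/

set_option autoImplicit false

open MeasureTheory ProbabilityTheory Filter Topology Finset
open scoped Nat ENNReal

namespace Pool.Agent.H66.SG.CB0

open Pool.Agent.H67.AG Pool.Agent.H40.AG

theorem W_pos (c : CtxE) (w : ℕ) : 0 < c.W w := Nat.mul_pos c.Qpos (Nat.factorial_pos w)

theorem dt_meas (c : CtxE) (i : Fin c.k) : Measurable (c.Dt i) := by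
  unfold Ctx.Dt
  exact c.Dm.comp (c.T.measurable.iterate _)

theorem dt_val (c : CtxE) (i : Fin c.k) (x : c.X) : c.Dt i x = 1 ∨ c.Dt i x = -1 := c.Dv _

/-- the numbers -/
theorem par_num {m k N θ : ℝ} (hm : 0 < m) (hk : 1 ≤ k) (hN : 1 ≤ N)
    (hθ : θ = m / (10 ^ 10 * N ^ 2 * (k + 1) ^ 3)) :
    0 < θ ∧ θ * (10 ^ 6 * N ^ 2 * (k + 1) ^ 2) ≤ m ∧
    2 * θ + θ + m / (4 * 10 ^ 6 * (k + 1) ^ 2) + 2000 * N * θ ≤ m / (10 ^ 6 * (k + 1) ^ 2) ∧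
    N * (k * (θ + 2 * θ)) ≤ m / (3 * 10 ^ 5 * (k + 1) ^ 2) ∧
    θ ≤ m / (3 * 10 ^ 5 * (k + 1) ^ 2) := by
  have hk0 : 0 < k := by linarith
  have hN0 : 0 < N := by linarith
  have hD : 0 < 10 ^ 10 * N ^ 2 * (k + 1) ^ 3 := by positivity
  have hθ0 : 0 < θ := by rw [hθ]; positivity
  have hmul : θ * (10 ^ 10 * N ^ 2 * (k + 1) ^ 3) = m := by
    rw [hθ, div_mul_cancel₀ _ hD.ne']
  have hK : 0 < (k + 1) ^ 2 := by positivity
  obtain ⟨t, ht⟩ : ∃ t : ℝ, t = m / (k + 1) ^ 2 := ⟨_, rfl⟩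
  have ht0 : 0 < t := by rw [ht]; positivity
  have htm : t = θ * (10 ^ 10 * N ^ 2 * (k + 1)) := by
    rw [ht, div_eq_iff hK.ne', ← hmul]
    ring
  have e1 : m / (4 * 10 ^ 6 * (k + 1) ^ 2) = t / (4 * 10 ^ 6) := by
    rw [ht]
    field_simp
  have e2 : m / (10 ^ 6 * (k + 1) ^ 2) = t / 10 ^ 6 := by
    rw [ht]
    field_simp
  have e3 : m / (3 * 10 ^ 5 * (k + 1) ^ 2) = t / (3 * 10 ^ 5) := by
    rw [ht]
    field_simp
  have hN2 : N ≤ N ^ 2 := by nlinarith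
  have h1 : θ * N * (k + 1) ≤ t / 10 ^ 10 := by
    rw [htm]
    have h2 : θ * (10 ^ 10 * N ^ 2 * (k + 1)) / 10 ^ 10 = θ * N ^ 2 * (k + 1) := by ring
    rw [h2]
    have : 0 ≤ θ * (k + 1) := by positivity
    nlinarith
  have h2 : 0 ≤ θ * N := by positivity
  have h3 : θ ≤ θ * N := by nlinarith
  have h4 : θ * N ≤ t / 10 ^ 10 := by nlinarith
  have h5 : N * (k * (θ + 2 * θ)) ≤ 3 * (t / 10 ^ 10) := by nlinarith
  rw [e1, e2, e3]
  refine ⟨hθ0, ?_, ?_, ?_, ?_⟩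
  · have h6 : θ * (10 ^ 6 * N ^ 2 * (k + 1) ^ 2) ≤ θ * (10 ^ 10 * N ^ 2 * (k + 1) ^ 3) := by
      apply mul_le_mul_of_nonneg_left _ hθ0.le
      have h7 : (k + 1) ^ 2 ≤ (k + 1) ^ 3 := by nlinarith
      have h8 : 0 ≤ N ^ 2 := by positivity
      have h9 : N ^ 2 * (k + 1) ^ 2 ≤ N ^ 2 * (k + 1) ^ 3 := mul_le_mul_of_nonneg_left h7 h8
      have h10 : 0 ≤ N ^ 2 * (k + 1) ^ 3 := by positivity
      nlinarith
    rw [hmul] at h6
    exact h6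
  · nlinarith
  · linarith
  · linarith

theorem mis_integrable {Ω : Type} (m : MeasurableSpace Ω) [mΩ : MeasurableSpace Ω]
    (P : Measure Ω) {k : ℕ} (y y' : Fin k → Ω → ℝ) : Integrable (Mis P m y y') P := by
  unfold Mis
  exact integrable_finsetSum _ fun i _ => integrable_condExp

/-- the reference system of section 7 -/
noncomputable def refS (hpnt : T_PNT) (c : CtxE) (Z : SA c.X) (hZ : InvZ c.T Z) (n w : ℕ)
    (hw : 0 < w) : Sw where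
  k := c.k
  β := c.β
  inj := c.inj
  σ := c.σ
  σv := c.σv
  w := w
  W := c.W w
  hw := hw
  hW := W_pos c w
  hd := Dvd.intro_left _ rfl
  U := c.U w
  hU := c.hU w
  Ω' := XN c.X n
  P' := PN c.μ Z n
  T' := TN c.T n
  mp' := hpnt c.X c.μ c.T Z n c.erg.toMeasurePreserving hZ
  n := n
  y := fun b i q => c.Dt i (q.2 b)
  hy := fun b => ⟨fun i => (dt_meas c i).comp ((measurable_pi_apply b).comp measurable_snd),
    fun i _ => dt_val c i _⟩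

theorem pf_CB0 (h1 : T_CLM) (h2 : T_CHW) (h3 : T_CHL) (h3g : T_CHG) (h4 : T_CHR) (h5 : T_GGP)
    (hwd : T_WDS) (h6 : T_SLV) (h7 : T_SW) (_hna : T_NA) (hnx : T_NXI) (_hj2 : T_J2) (_hj3 : T_J3)
    (_hpnl : T_PNL) (hpnt : T_PNT) (_hpxl : T_PXL) (hpxt : T_PXT) (hpxf : T_PXF) : T_CB0 := by
  intro c Z hZ hcp
  obtain ⟨hZ', hle, hrt⟩ := hnx c.X c.μ c.T Z c.erg hZ
  have hT : MeasurePreserving c.T c.μ c.μ := c.erg.toMeasurePreserving
  set Z' := nxt c.μ c.T Z with hZdef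
  obtain ⟨c₀, X1, hc0, hc1, hX1, hXg, hpos, hcl⟩ := h1 c Z' hZ' hcp
  have hk1 : 1 ≤ c.k := c.kpos
  have hkR : (1 : ℝ) ≤ c.k := by exact_mod_cast hk1
  set M : ℝ := c.μ.real X1 with hM
  set ε : ℝ := M / (4 * 10 ^ 6 * ((c.k : ℝ) + 1) ^ 2) with hε
  have hε0 : 0 < ε := by positivity
  obtain ⟨n, hn⟩ : ∃ n : ℕ, (1 - c₀) ^ (n + 1) ≤ ε := by
    obtain ⟨n, hn⟩ := exists_pow_lt_of_lt_one hε0 (show 1 - c₀ < 1 by linarith)
    refine ⟨n, ?_⟩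
    rw [pow_succ]
    have h0 : 0 ≤ (1 - c₀) ^ n := pow_nonneg (by linarith) n
    nlinarith
  have hN1 : (1 : ℝ) ≤ (n : ℝ) + 1 := by
    have : (0 : ℝ) ≤ n := Nat.cast_nonneg n
    linarith
  obtain ⟨θ, hθ⟩ : ∃ θ : ℝ, θ = M / (10 ^ 10 * ((n : ℝ) + 1) ^ 2 * ((c.k : ℝ) + 1) ^ 3) :=
    ⟨_, rfl⟩
  obtain ⟨hθ0, hθ1, hθ2, hθ3, hθ4⟩ := par_num hpos hkR hN1 hθ
  set η : ℝ := M / (3 * 10 ^ 5 * ((c.k : ℝ) + 1) ^ 2) with hη
  have hη0 : 0 < η := by positivity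
  obtain ⟨w, X1', hw, hX1', -, hsd, hlam, hmis, hpair, hkw⟩ :=
    h2 c Z' X1 (θ / 2) hZ' hX1 hXg (by linarith)
  obtain ⟨L₀, hL₀⟩ := h3 c Z' (c.W w) (θ / 2) hZ' (by linarith)
  obtain ⟨L₀', hL₀'⟩ := h3g c Z' (c.W w) (θ / 2) (θ / 2) hZ' (by linarith) hpair
  obtain ⟨L₂, hL₂, hL₂p, hL₂D⟩ : ∃ L₂ : ℕ, L₀' ≤ L₂ ∧ 0 < L₂ ∧ Dlt c.β / (L₂ : ℝ) ≤ η := by
    obtain ⟨r, hr⟩ := exists_nat_ge (Dlt c.β / η)
    refine ⟨L₀' + r + 1, by omega, by omega, ?_⟩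
    push_cast
    have h0 : (0 : ℝ) ≤ L₀' := Nat.cast_nonneg _
    have h0' : (0 : ℝ) ≤ r := Nat.cast_nonneg _
    rw [div_le_iff₀ (by linarith)]
    rw [div_le_iff₀ hη0] at hr
    nlinarith
  set d := refS hpnt c Z' hZ' (n + 1) w hw with hd
  have hsw2 : (d.k : ℝ) ^ 2 / d.w ≤ η := by
    change (c.k : ℝ) ^ 2 / w ≤ η
    linarith
  obtain ⟨L₁, hL₁⟩ := h7 d η L₂ hη0 hsw2 hL₂p hL₂D
  obtain ⟨h, hh⟩ : ∃ h : ℕ, h = L₀ + L₁ + L₂ * Dlt c.β + 1 := ⟨_, rfl⟩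
  obtain ⟨L, hL⟩ : ∃ L : ℕ, L = 16 * c.k * h := ⟨_, rfl⟩
  have hhL : h ≤ L := by
    rw [hL]
    nlinarith
  have hLpos : 0 < L := by omega
  have hLL₀ : L₀ ≤ L := by omega
  have hLL₂ : L₂ * Dlt c.β ≤ L := by omega
  have hLL₁ : 16 * c.k * L₁ ≤ L := by
    rw [hL]
    exact Nat.mul_le_mul_left _ (by omega)
  obtain ⟨R, hRp, hRT, hRJ, hR1, hR2, hRw, hRx⟩ := h4 c Z (c.W w) L X1' θ hZ (W_pos c w) hX1' hθ0
  set P : Measure (XX c.X (n + 1)) := PX c.μ Z' (n + 1) R with hP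
  -- the window
  have hwin : ∫ q, |c.dL (c.W w) L q - c.MR Z' q| ∂(JJ c.μ Z') ≤ θ := by
    have hdLm : Measurable (c.dL (c.W w) L) := by
      unfold CtxE.dL
      refine Finset.measurable_sum _ fun i _ => av_meas _ _ _ ?_
      unfold dl
      exact Measurable.ite (measurableSet_eq_fun
        ((dt_meas c i).comp measurable_fst) ((dt_meas c i).comp measurable_snd))
        measurable_const measurable_const
    have hdLb : ∃ C, ∀ q, |c.dL (c.W w) L q| ≤ C := by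
      refine ⟨c.k, fun q => ?_⟩
      unfold CtxE.dL
      refine (Finset.abs_sum_le_sum_abs _ _).trans ?_
      have : ∀ i ∈ (univ : Finset (Fin c.k)), |Av (TT c.T) (c.W w) L (dl c.D1 c.D2 i) q| ≤ 1 :=
        fun i _ => av_bdd _ _ _ zero_le_one (fun q => by
          unfold dl
          split_ifs <;> simp) q
      refine (Finset.sum_le_sum this).trans ?_
      simp
    have hint1 : Integrable (c.dL (c.W w) L) (JJ c.μ Z') := bint hdLm hdLb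
    have hint2 := mis_integrable (Inv (TT c.T) (c.W w)) (JJ c.μ Z') c.D1 c.D2
    have hint3 : Integrable (c.MR Z') (JJ c.μ Z') :=
      mis_integrable (Rt (TT c.T)) (JJ c.μ Z') c.D1 c.D2
    have hle1 := hL₀ L hLL₀
    calc ∫ q, |c.dL (c.W w) L q - c.MR Z' q| ∂(JJ c.μ Z')
        ≤ ∫ q, (|c.dL (c.W w) L q - Mis (JJ c.μ Z') (Inv (TT c.T) (c.W w)) c.D1 c.D2 q| +
          |Mis (JJ c.μ Z') (Inv (TT c.T) (c.W w)) c.D1 c.D2 q - c.MR Z' q|) ∂(JJ c.μ Z') := by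
          refine integral_mono (hint1.sub hint3).abs
            ((hint1.sub hint2).abs.add (hint2.sub hint3).abs) fun q => ?_
          exact abs_sub_le _ _ _
      _ = _ := integral_add (hint1.sub hint2).abs (hint2.sub hint3).abs
      _ ≤ θ := by linarith
  have hsd' : c.μ.real (symmDiff X1 X1') ≤ θ := by linarith
  have hBG := h5 c Z' c₀ X1 X1' (c.W w) L n R θ θ θ hZ' hrt hc0 hc1 hX1 hXg hcl (W_pos c w)
    hLpos hX1' hsd' hwin hR1 hR2 hRw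
  have hBG' : P.real (c.BG (c.W w) L n X1') ≤ M / (10 ^ 6 * ((c.k : ℝ) + 1) ^ 2) := by
    refine hBG.trans ?_
    linarith
  have hmpX : MeasurePreserving (TX c.T (n + 1)) P P :=
    hpxt c.X c.μ c.T Z' (n + 1) R hT hZ' hR1 hR2 hRT
  have hfacX := hpxf c.X c.μ c.T Z' (n + 1) R hT hZ' hR1 hR2 hRT
  obtain ⟨hselm, -, -⟩ := h6 c X1' (c.W w) L n 0 P hmpX (W_pos c w) hLpos hX1'
  let e : SwE d :=
    { Ω := XX c.X (n + 1)
      P := P
      T := TX c.T (n + 1)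
      mp := hmpX
      g := prX c.X (n + 1)
      fac := hfacX.1
      s := c.sel (c.W w) L n X1'
      sm := hselm }
  have hmove : ∀ l ≤ L₁, e.P.real {ω | e.s (e.T^[d.W * l] ω) ≠ e.s ω} ≤ η := by
    intro l hl
    have := (h6 c X1' (c.W w) L n l P hmpX (W_pos c w) hLpos hX1').2.1
      (le_trans (Nat.mul_le_mul_left _ hl) hLL₁)
    refine le_trans this ?_
    have h2 : 2 * (M / (10 ^ 6 * ((c.k : ℝ) + 1) ^ 2)) ≤ η := by
      rw [hη, mul_div_assoc', div_le_div_iff₀ (by positivity) (by positivity)]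
      have : 0 ≤ M * ((c.k : ℝ) + 1) ^ 2 := by positivity
      nlinarith
    linarith
  have hprod : ∀ (b : Fin (n + 1)) (i : Fin c.k),
      ∫ q, |Av (TX c.T (n + 1)) (c.W w * Dlt c.β) L₂ (fun q => c.yL n i q * c.yX n b i q) q -
        Av (TX c.T (n + 1)) (c.W w) L₂ (fun q => c.yL n i q * c.yX n b i q) q| ∂P ≤
      θ + 2 * θ := by
    intro b i
    refine hwd c Z' (c.W w) L L₂ n R θ θ i b hZ' (W_pos c w) hL₂p hLL₂ ?_ hR1 hR2 hRw
    have := hL₀' L₂ hL₂ i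
    linarith
  have hsumP : ∑ b, ∑ i, ∫ ω, |Av e.T (d.W * Dlt d.β) L₂ (gl e (c.yL n) b i) ω -
      Av e.T d.W L₂ (gl e (c.yL n) b i) ω| ∂e.P ≤ η := by
    have hsum : ∑ b : Fin (n + 1), ∑ i : Fin c.k,
        ∫ q, |Av (TX c.T (n + 1)) (c.W w * Dlt c.β) L₂ (fun q => c.yL n i q * c.yX n b i q) q -
        Av (TX c.T (n + 1)) (c.W w) L₂ (fun q => c.yL n i q * c.yX n b i q) q| ∂P ≤
        ∑ b : Fin (n + 1), ∑ i : Fin c.k, (θ + 2 * θ) :=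
      Finset.sum_le_sum fun b _ => Finset.sum_le_sum fun i _ => hprod b i
    refine le_trans hsum ?_
    simp only [Finset.sum_const, Finset.card_univ, Fintype.card_fin, nsmul_eq_mul]
    push_cast
    exact hθ3
  have hyl : Tup (c.yL n) := ⟨fun i => (dt_meas c i).comp (measurable_snd.comp measurable_snd),
    fun i _ => dt_val c i _⟩
  have hAinv : MeasurableSet[Inv (TX c.T (n + 1)) (c.W w)] {q : XX c.X (n + 1) | q.1.1 ∈ X1'} := by
    obtain ⟨m₁, m2⟩ := (set_inv_iff c.T (c.W w) X1').1 hX1'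
    refine (set_inv_iff _ _ _).2 ⟨?_, ?_⟩
    · exact (measurable_fst.comp measurable_fst) m₁
    · intro q
      have := fac_it hfacX.2.2.2.2.1 (c.W w) q
      change ((TX c.T (n + 1))^[c.W w] q).1.1 ∈ X1' ↔ q.1.1 ∈ X1'
      rw [this]
      exact m2 q.1.1
  have hfinal := hL₁ e (c.yL n) hyl hmove hsumP {q : XX c.X (n + 1) | q.1.1 ∈ X1'} hAinv
  refine ⟨n, w, L, X1, X1', R, θ, hw, hLpos, hθ0.le, ⟨h, hL⟩, hRp, hX1, hXg, hpos, hX1', hsd',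
    hRT, hRJ, hR1, hR2, hRx, by linarith, hBG', ?_, ?_⟩
  · refine le_trans (le_of_eq ?_) hθ1
    ring
  · refine le_trans hfinal ?_
    have hη' : 300 * ((d.k : ℝ) + 1) ^ 2 * η = M / 1000 := by
      change 300 * ((c.k : ℝ) + 1) ^ 2 * η = M / 1000
      rw [hη]
      field_simp
      ring
    rw [hη']
    exact le_refl _

end Pool.Agent.H66.SG.CB0
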